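import Pool.Agent.Y696.CTK.Stm

/-!
# CTK-JEX: the identification of the ring of integers of the third cyclotomic field
-/

set_option autoImplicit false

open scoped Classical

namespace Pool.Agent.Y455.CTK

open NumberField
open Pool.Agent.Y692.QS (Ei w nr toC nr_eq nr_zero_iff mul_star)
open Pool.Agent.Y715.T.Gi (ev ev_apply)

theorem norm_Ei (z : Ei) : Algebra.norm ℤ z = nr z := by
  rw [nr_eq, ← QuadraticAlgebra.det_toLinearMap_eq_norm, Algebra.norm_apply]
  rfl

theorem jex : Pool.Agent.Y696.CTK.S_JEX := by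
  intro K _ _ _
  have : Fact (Nat.Prime 3) := ⟨Nat.prime_three⟩
  refine ⟨?_, ?_⟩
  · obtain ⟨ζ, hζ⟩ := IsCyclotomicExtension.exists_isPrimitiveRoot ℚ K
      (Set.mem_singleton 3) (by norm_num)
    have h2 : hζ.toInteger ^ 2 + hζ.toInteger + 1 = 0 := by
      have h3 : hζ.toInteger ^ 3 = 1 := hζ.toInteger_isPrimitiveRoot.pow_eq_one
      have h4 : hζ.toInteger ≠ 1 := hζ.toInteger_isPrimitiveRoot.ne_one (by norm_num)
      have h5 : (hζ.toInteger - 1) * (hζ.toInteger ^ 2 + hζ.toInteger + 1) = 0 := by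
        linear_combination h3
      exact (mul_eq_zero.1 h5).resolve_left (sub_ne_zero.2 h4)
    have hbij : Function.Bijective (ev hζ.toInteger h2) := by
      constructor
      · rw [injective_iff_map_eq_zero]
        intro z h
        have h1 : ev hζ.toInteger h2 (z * star z) = 0 := by rw [map_mul, h, zero_mul]
        rw [mul_star, map_intCast] at h1
        have h3 : nr z = 0 := by exact_mod_cast h1
        exact nr_zero_iff.1 h3
      · intro z
        obtain ⟨x, y, h⟩ := Pool.Agent.Y696.int_rep hζ z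
        refine ⟨⟨x, y⟩, ?_⟩
        rw [ev_apply, h]
    refine ⟨RingEquiv.ofBijective _ hbij, fun z => ?_⟩
    have h1 := Algebra.norm_eq_of_equiv_equiv (RingEquiv.refl ℤ)
      (RingEquiv.ofBijective _ hbij) (RingHom.ext_int _ _) z
    rw [← norm_Ei, h1]
    rfl
  · have h1 := IsCyclotomicExtension.Rat.discr_prime 3 K
    rw [h1]
    norm_num

end Pool.Agent.Y455.CTK
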