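import Pool.Agent.Y696.CTK.Stm
import Pool.Agent.Y696.Tam

/-!
# CTK-MIN: the equation `y² + D y = x³` is minimal at every finite place
-/

set_option autoImplicit false
set_option linter.unusedSectionVars false

open scoped Classical

namespace Pool.Agent.Y455.CTK

open NumberField IsDedekindDomain WeierstrassCurve WithZero
open Pool.Agent.Y692.QS (Ei w nr toC)
open Pool.Agent.Y696.CTK (ED)
open Pool.Agent.Y715.T.Gi (lam lam_sq prime_lam)

theorem ED_Δ {L : Type} [Field L] (δ : L) : (ED δ).Δ = -27 * δ ^ 4 := by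
  unfold ED WeierstrassCurve.Δ WeierstrassCurve.b₂ WeierstrassCurve.b₄ WeierstrassCurve.b₆
    WeierstrassCurve.b₈
  ring

theorem ED_map {K L : Type} [Field K] [Field L] (f : K →+* L) (δ : K) :
    (ED δ).map f = ED (f δ) := by
  unfold ED WeierstrassCurve.map
  simp

section min
open IsDiscreteValuationRing IsLocalRing IsDedekindDomain.HeightOneSpectrum
variable (R : Type) [CommRing R] [IsDomain R] [IsDiscreteValuationRing R] {L : Type}
  [Field L] [Algebra R L] [IsFractionRing R L]

theorem isIntegral_ED (d : R) : WeierstrassCurve.IsIntegral R (ED (algebraMap R L d)) := by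
  refine ⟨⟨⟨0, 0, d, 0, 0⟩, ?_⟩⟩
  unfold ED WeierstrassCurve.baseChange WeierstrassCurve.map
  simp

theorem isMinimal_ED (d : R) (h : ∀ u ∈ IsLocalRing.maximalIdeal R, ¬ u ^ 12 ∣ (27 * d ^ 4 : R)) :
    WeierstrassCurve.IsMinimal R (ED (algebraMap R L d)) := by
  have hint := isIntegral_ED R (L := L) d
  refine ⟨⟨by
    change WeierstrassCurve.IsIntegral R
      ((1 : WeierstrassCurve.VariableChange L) • ED (algebraMap R L d))
    rw [one_smul]
    exact hint, ?_⟩⟩
  intro C hC _
  have hC' : WeierstrassCurve.IsIntegral R (C • ED (algebraMap R L d)) := hC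
  change WeierstrassCurve.valuation_Δ_aux R (C • ED (algebraMap R L d)) ≤
    WeierstrassCurve.valuation_Δ_aux R
      ((1 : WeierstrassCurve.VariableChange L) • ED (algebraMap R L d))
  rw [one_smul, ← Subtype.coe_le_coe, valuation_Δ_aux_eq_of_isIntegral,
    valuation_Δ_aux_eq_of_isIntegral, variableChange_Δ, ED_Δ, map_mul]
  have hu0 : ((C.u : Lˣ) : L) ≠ 0 := C.u.ne_zero
  have huv : ((C.u⁻¹ : Lˣ) : L) * ((C.u : Lˣ) : L) = 1 := by simp
  have hle : valuation L (maximalIdeal R) ((C.u⁻¹ : Lˣ) : L) ≤ 1 := by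
    by_contra hlt
    rw [not_le] at hlt
    have h1 : valuation L (maximalIdeal R) ((C.u : Lˣ) : L) < 1 := by
      have h2 := congrArg (valuation L (maximalIdeal R)) huv
      rw [map_mul, map_one] at h2
      by_contra h3
      rw [not_lt] at h3
      exact absurd h2 (one_lt_mul_of_lt_of_le hlt h3).ne'
    obtain ⟨u₀, hu₀⟩ := exists_lift_of_le_one (A := R) (K := L) h1.le
    have hmem : u₀ ∈ IsLocalRing.maximalIdeal R := by
      rw [← hu₀] at h1
      exact (valuation_lt_one_iff_mem (K := L) (maximalIdeal R) u₀).1 h1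
    obtain ⟨r, hr⟩ := WeierstrassCurve.Δ_integral_of_isIntegral R (C • ED (algebraMap R L d))
    rw [variableChange_Δ, ED_Δ] at hr
    refine h u₀ hmem ⟨-r, ?_⟩
    apply IsFractionRing.injective R L
    rw [map_mul, map_mul, map_neg, map_pow, map_pow, hr, hu₀, map_ofNat]
    have h5 : ((C.u : Lˣ) : L) ^ 12 * (((C.u⁻¹ : Lˣ) : L)) ^ 12 = 1 := by
      rw [← mul_pow, mul_comm, huv, one_pow]
    linear_combination (-27 * (algebraMap R L d) ^ 4) * h5
  calc valuation L (maximalIdeal R) (((C.u⁻¹ : Lˣ) : L) ^ 12) *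
        valuation L (maximalIdeal R) (-27 * (algebraMap R L d) ^ 4)
      ≤ 1 * valuation L (maximalIdeal R) (-27 * (algebraMap R L d) ^ 4) := by
        rw [map_pow]
        gcongr
        exact pow_le_one₀ zero_le hle
    _ = _ := one_mul _

end min

section
variable {K : Type} [Field K] [NumberField K]

theorem pid_of (j : Ei ≃+* 𝓞 K) : IsPrincipalIdealRing (𝓞 K) :=
  have := Pool.Agent.Y715.T.Rs.pidEi
  IsPrincipalIdealRing.of_surjective (j : Ei →+* 𝓞 K) j.surjective

/-- the valuation of `x` is `exp (-1)` if `x` generates the prime -/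
theorem val_gen (v : HeightOneSpectrum (𝓞 K)) {x : 𝓞 K} (hx : x ≠ 0)
    (h : v.asIdeal = Ideal.span {x}) : v.intValuation x = exp (-1 : ℤ) :=
  v.intValuation_singleton hx h

/-- the square root of `-3` -/
theorem val_theta (j : Ei ≃+* 𝓞 K) (v : HeightOneSpectrum (𝓞 K)) (h3 : (3 : 𝓞 K) ∈ v.asIdeal) :
    v.intValuation (j lam) = exp (-1 : ℤ) := by
  have hp : Prime (j lam) := (MulEquiv.prime_iff (j : Ei ≃* 𝓞 K)).2 prime_lam
  have hsq : (j lam) ^ 2 = -3 := by
    rw [← map_pow, lam_sq, map_neg, map_ofNat]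
  have hmem : j lam ∈ v.asIdeal := by
    apply v.isPrime.mem_of_pow_mem 2
    rw [hsq]
    exact v.asIdeal.neg_mem h3
  refine val_gen v hp.ne_zero ?_
  have hprime : (Ideal.span {j lam} : Ideal (𝓞 K)).IsPrime :=
    (Ideal.span_singleton_prime hp.ne_zero).2 hp
  have hmax : (Ideal.span {j lam} : Ideal (𝓞 K)).IsMaximal :=
    hprime.isMaximal (by rw [Ne, Ideal.span_singleton_eq_bot]; exact hp.ne_zero)
  exact (hmax.eq_of_le v.isPrime.ne_top (by
    rw [Ideal.span_singleton_le_iff_mem]; exact hmem)).symm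

/-- a squarefree element is not in the square of a prime -/
theorem not_sq (j : Ei ≃+* 𝓞 K) (v : HeightOneSpectrum (𝓞 K)) {D : Ei} (hD : Squarefree D) :
    j D ∉ v.asIdeal ^ 2 := by
  intro h
  have := pid_of j
  obtain ⟨p, hp⟩ := IsPrincipalIdealRing.principal v.asIdeal
  have hp' : v.asIdeal = Ideal.span {p} := hp
  rw [hp', Ideal.span_singleton_pow, Ideal.mem_span_singleton] at h
  have h1 : (j.symm p) * (j.symm p) ∣ D := by
    obtain ⟨c, hc⟩ := h
    refine ⟨j.symm c, ?_⟩
    apply j.injective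
    rw [map_mul, map_mul, RingEquiv.apply_symm_apply, RingEquiv.apply_symm_apply, hc]
    ring
  have h2 := hD _ h1
  have h3 : IsUnit p := by
    have := h2.map (j : Ei →* 𝓞 K)
    simpa using this
  apply v.isPrime.ne_top
  rw [hp', Ideal.span_singleton_eq_top]
  exact h3

theorem mink : Pool.Agent.Y696.CTK.S_MINK := by
  intro K _ _ j D h3D hsq v
  have hbc : (ED (j D : K)).baseChange (v.adicCompletion K) =
      ED (algebraMap (v.adicCompletionIntegers K) (v.adicCompletion K)
        (algebraMap (𝓞 K) (v.adicCompletionIntegers K) (j D))) := by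
    unfold WeierstrassCurve.baseChange
    rw [ED_map]
    rfl
  rw [hbc]
  apply isMinimal_ED
  rintro u hu ⟨r, hr⟩
  have h1 : Valued.v (u : v.adicCompletion K) < 1 := (Pool.Agent.W189.NF.mem_max_iff v u).1 hu
  have h2 : Valued.v (u : v.adicCompletion K) ≤ exp (-1 : ℤ) := Pool.Agent.Y696.exp_lt h1
  have h3 : Valued.v (r : v.adicCompletion K) ≤ 1 := r.2
  obtain ⟨δ, hδ⟩ : ∃ δ : v.adicCompletion K, δ = algebraMap K (v.adicCompletion K) (j D : K) :=
    ⟨_, rfl⟩
  have h4 : (27 : v.adicCompletion K) * δ ^ 4 =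
      (u : v.adicCompletion K) ^ 12 * (r : v.adicCompletion K) := by
    have := congrArg (algebraMap (v.adicCompletionIntegers K) (v.adicCompletion K)) hr
    rw [map_mul, map_mul, map_pow, map_pow, map_ofNat] at this
    rw [hδ]
    exact this
  have h5 : Valued.v ((27 : v.adicCompletion K) * δ ^ 4) ≤ exp (-12 : ℤ) := by
    rw [h4, map_mul, map_pow]
    calc _ ≤ (exp (-1 : ℤ)) ^ 12 * 1 := by gcongr
      _ = exp (-12 : ℤ) := by rw [mul_one, ← exp_nsmul]; rfl
  have hval : ∀ x : 𝓞 K, Valued.v (algebraMap K (v.adicCompletion K) (x : K)) =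
      v.intValuation x := by
    intro x
    rw [Pool.Agent.H723R3.valued_algebraMap]
    exact HeightOneSpectrum.valuation_of_algebraMap (K := K) v x
  have hφ : ∀ x : 𝓞 K, algebraMap K (v.adicCompletion K) (x : K) =
      ((algebraMap K (v.adicCompletion K)).comp (algebraMap (𝓞 K) K)) x := fun _ => rfl
  have h6 : (exp (-6 : ℤ) : ℤᵐ⁰) ≤ Valued.v ((27 : v.adicCompletion K) * δ ^ 4) := by
    by_cases hv : (3 : 𝓞 K) ∈ v.asIdeal
    · have e2 := val_theta j v hv
      have e1 : (27 : 𝓞 K) = -(j lam) ^ 6 := by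
        have hsq : (j lam) ^ 2 = -3 := by
          rw [← map_pow, lam_sq, map_neg, map_ofNat]
        linear_combination ((j lam) ^ 4 - 3 * (j lam) ^ 2 + 9) * hsq
      have e3 : v.intValuation (j D) = 1 := by
        rw [HeightOneSpectrum.intValuation_eq_one_iff]
        intro hmem
        apply v.isPrime.ne_top
        rw [Ideal.eq_top_iff_one]
        obtain ⟨m, hm⟩ := h3D
        have e4 : (1 : 𝓞 K) = j D - 3 * j m := by
          have := congrArg j hm
          rw [map_sub, map_one, map_mul, map_ofNat] at this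
          linear_combination -this
        rw [e4]
        exact v.asIdeal.sub_mem hmem (v.asIdeal.mul_mem_right _ hv)
      have e5 : (27 : v.adicCompletion K) * δ ^ 4 =
          algebraMap K (v.adicCompletion K) (((27 * (j D) ^ 4 : 𝓞 K)) : K) := by
        rw [hδ, hφ, hφ, map_mul, map_pow, map_ofNat]
      rw [e5, hval, map_mul, map_pow, e3, one_pow, mul_one, e1, Valuation.map_neg, map_pow, e2,
        ← exp_nsmul]
      exact le_of_eq rfl
    · have e2 : v.intValuation (3 : 𝓞 K) = 1 := HeightOneSpectrum.intValuation_eq_one_iff.2 hv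
      have e3 : (exp (-1 : ℤ) : ℤᵐ⁰) ≤ v.intValuation (j D) := by
        have h7 : ¬ v.intValuation (j D) ≤ exp (-((2 : ℕ) : ℤ)) := by
          rw [v.intValuation_le_pow_iff_mem]
          exact not_sq j v hsq
        rw [not_le] at h7
        obtain ⟨n, hn⟩ := Pool.Agent.Y696.exp_rep (ne_of_gt (lt_of_le_of_lt zero_le h7))
        rw [hn] at h7 ⊢
        rw [exp_lt_exp] at h7
        rw [exp_le_exp]
        push_cast at h7
        omega
      have e5 : (27 : v.adicCompletion K) * δ ^ 4 =
          algebraMap K (v.adicCompletion K) (((3 ^ 3 * (j D) ^ 4 : 𝓞 K)) : K) := by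
        rw [hδ, hφ, hφ, map_mul, map_pow, map_pow, map_ofNat]
        norm_num
      rw [e5, hval, map_mul, map_pow, map_pow, e2, one_pow, one_mul]
      calc (exp (-6 : ℤ) : ℤᵐ⁰) ≤ exp (-4 : ℤ) := by rw [exp_le_exp]; norm_num
        _ = (exp (-1 : ℤ)) ^ 4 := by rw [← exp_nsmul]; rfl
        _ ≤ _ := by gcongr
  have h7 := h6.trans h5
  rw [exp_le_exp] at h7
  norm_num at h7

end

end Pool.Agent.Y455.CTK
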